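import Mathlib
import Pool.Agent.H2.RF0

set_option autoImplicit false

namespace Pool.Agent.Results.MP_0995d8_gt.NotImage

open Filter Topology Set

universe u

/-- precompact: finitely many translates of every neighbourhood of the identity cover the group -/
def Precompact (G : Type u) [CommGroup G] [TopologicalSpace G] : Prop :=
  ∀ U ∈ nhds (1 : G), ∃ F : Finset G, ∀ x : G, ∃ g ∈ F, g⁻¹ * x ∈ U

/-- Pontryagin reflexive: the evaluation map is a topological isomorphism onto the bidual -/
def Reflexive (G : Type u) [CommGroup G] [TopologicalSpace G] : Prop :=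
  ∃ e : G ≃ₜ* PontryaginDual (PontryaginDual G), ∀ (g : G) (χ : PontryaginDual G), e g χ = χ g

/-- Some precompact abelian group is not a continuous homomorphic image of any reflexive
precompact abelian group. -/
theorem result : ∃ (H : Type) (_ : CommGroup H) (_ : TopologicalSpace H),
    IsTopologicalGroup H ∧ T2Space H ∧ Precompact H ∧
    ∀ (G : Type u) [CommGroup G] [TopologicalSpace G] [IsTopologicalGroup G] [T2Space G],
      Precompact G → Reflexive G → ∀ f : G →* H, Continuous f → ¬ Function.Surjective f :=
  ⟨H2.RF.ZB, inferInstance, inferInstance, inferInstance, inferInstance, H2.RF.ZB_pc,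
    fun G _ _ _ _ hp ⟨e, he⟩ => H2.RF.no_image G hp e he⟩

end Pool.Agent.Results.MP_0995d8_gt.NotImage
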